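import Pool.Agent.Helper27.CB.St

/-! # Project CB (MP_b21509_co), module SLK: the sets `hs L s` -/

set_option autoImplicit false

open MeasureTheory Set
open scoped ENNReal Pointwise

namespace Pool.Agent.Helper33.CB

open Pool.Agent.Helper27.CB

/-- the set of the lengths of horizontal chords -/
private def M_SLK (L : Set P2) : Set ℝ := {s : ℝ | ∃ t τ : ℝ, (t, τ) ∈ L ∧ (t + s, τ) ∈ L}

private theorem compactM_SLK (L : Set P2) (hL : IsCompact L) : IsCompact (M_SLK L) := by
  have h1 : M_SLK L = (fun r : P2 × P2 => r.2.1 - r.1.1) '' ((L ×ˢ L) ∩ {r | r.1.2 = r.2.2}) := by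
    ext s
    constructor
    · rintro ⟨t, τ, h1, h2⟩
      refine ⟨((t, τ), (t + s, τ)), ⟨⟨h1, h2⟩, rfl⟩, ?_⟩
      simp
    · rintro ⟨⟨⟨t, τ⟩, ⟨t', τ'⟩⟩, ⟨⟨h1, h2⟩, h3⟩, rfl⟩
      simp only [Set.mem_ofPred_eq] at h3
      subst h3
      refine ⟨t, τ, h1, ?_⟩
      simpa using h2
  rw [h1]
  refine IsCompact.image ?_ (by fun_prop)
  refine (hL.prod hL).inter_right ?_
  exact isClosed_eq (by fun_prop) (by fun_prop)

private theorem comb_SLK (L : Set P2) (hL : Convex ℝ L) (s s' x x' a a' : ℝ) (hx : x ∈ hs L s)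
    (hx' : x' ∈ hs L s') (ha : 0 ≤ a) (ha' : 0 ≤ a') (haa : a + a' = 1) :
    a * x + a' * x' ∈ hs L (a * s + a' * s') := by
  obtain ⟨t, h1, h2⟩ := hx
  obtain ⟨t', h3, h4⟩ := hx'
  refine ⟨a * t + a' * t', ?_, ?_⟩
  · have := hL h1 h3 ha ha' haa
    simpa using this
  · have := hL h2 h4 ha ha' haa
    have e : a * t + a' * t' + (a * s + a' * s') = a * (t + s) + a' * (t' + s') := by ring
    rw [e]
    simpa using this

private theorem mono_SLK (L : Set P2) (hL : Convex ℝ L) (s s' : ℝ) (hs0 : 0 ≤ s) (hss : s ≤ s') :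
    hs L s' ⊆ hs L s := by
  rintro τ ⟨t, h1, h2⟩
  rcases eq_or_lt_of_le (hs0.trans hss) with h0 | h0
  · have : s = s' := by linarith
    rw [this]
    exact ⟨t, h1, h2⟩
  · refine ⟨t, h1, ?_⟩
    have := hL h1 h2 (show 0 ≤ 1 - s / s' by rw [sub_nonneg, div_le_one h0]; exact hss)
      (show 0 ≤ s / s' from div_nonneg hs0 h0.le) (by ring)
    have e : (1 - s / s') * t + s / s' * (t + s') = t + s := by
      field_simp
      ring
    have e2 : (1 - s / s') * τ + s / s' * τ = τ := by ring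
    simp only [Prod.smul_mk, Prod.mk_add_mk, smul_eq_mul] at this
    rw [e, e2] at this
    exact this

theorem hSLK : StSLK := by
  intro L hL
  have hMc : IsCompact (M_SLK L) := compactM_SLK L hL.cpt
  obtain ⟨⟨x, y⟩, hxy⟩ := hL.int
  obtain ⟨ε, hε, hball⟩ := Metric.isOpen_iff.mp isOpen_interior _ hxy
  have hmem : ∀ u v : ℝ, |u| ≤ ε / 2 → |v| ≤ ε / 2 → (x + u, y + v) ∈ L := by
    intro u v hu hv
    refine interior_subset (hball ?_)
    rw [Metric.mem_ball, Prod.dist_eq, max_lt_iff]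
    constructor
    · rw [Real.dist_eq]
      simp only [add_sub_cancel_left]
      linarith
    · rw [Real.dist_eq]
      simp only [add_sub_cancel_left]
      linarith
  have h00 : (x, y) ∈ L := interior_subset hxy
  have hMne : (M_SLK L).Nonempty := ⟨0, x, y, h00, by simpa using h00⟩
  have hhalf : |ε / 2| ≤ ε / 2 := by rw [abs_of_pos (by linarith)]
  have hzero : |(0 : ℝ)| ≤ ε / 2 := by rw [abs_zero]; linarith
  have hho : ho L ∈ M_SLK L := hMc.sSup_mem hMne
  have hsc : IsCompact (Prod.snd '' L) := hL.cpt.image continuous_snd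
  refine ⟨?_, ?_, ?_, ?_, ?_, ?_, ?_, ?_⟩
  · intro s
    constructor
    · have h1 : hs L s = Prod.snd '' (L ∩ (fun q : P2 => ((q.1 + s, q.2) : P2)) ⁻¹' L) := by
        ext τ
        constructor
        · rintro ⟨t, h1, h2⟩
          exact ⟨(t, τ), ⟨h1, h2⟩, rfl⟩
        · rintro ⟨⟨t, τ'⟩, ⟨h1, h2⟩, h3⟩
          simp only at h3
          subst h3
          exact ⟨t, h1, h2⟩
      rw [h1]
      refine IsCompact.image ?_ continuous_snd
      refine hL.cpt.inter_right ?_
      exact hL.cpt.isClosed.preimage (by fun_prop)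
    · intro u hu v hv a b ha hb hab
      have := comb_SLK L hL.cvx s s u v a b hu hv ha hb hab
      have e : a * s + b * s = s := by rw [← add_mul, hab, one_mul]
      rw [e] at this
      simpa using this
  · intro s hs0 hs1
    obtain ⟨t, τ, h1, h2⟩ := hho
    exact ⟨τ, mono_SLK L hL.cvx s (ho L) hs0 hs1 ⟨t, h1, h2⟩⟩
  · intro s hs1
    rw [Set.eq_empty_iff_forall_notMem]
    rintro τ ⟨t, h1, h2⟩
    have : s ≤ ho L := le_csSup hMc.bddAbove ⟨t, τ, h1, h2⟩
    linarith
  · intro s s' h1 h2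
    exact mono_SLK L hL.cvx s s' h1 h2
  · intro s s' u u' a a' h1 h2 h3 h4 h5
    exact comb_SLK L hL.cvx s s' u u' a a' h1 h2 h3 h4 h5
  · ext τ
    constructor
    · rintro ⟨t, h1, _⟩
      exact ⟨(t, τ), h1, rfl⟩
    · rintro ⟨⟨t, τ'⟩, h1, h2⟩
      simp only at h2
      subst h2
      exact ⟨t, h1, by simpa using h1⟩
  · have h1 : ε / 2 ∈ M_SLK L := by
      refine ⟨x, y, h00, ?_⟩
      have := hmem (ε / 2) 0 hhalf hzero
      simpa using this
    have h2 : ε / 2 ≤ ho L := le_csSup hMc.bddAbove h1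
    linarith
  · have h1 : y + ε / 2 ∈ Prod.snd '' L := ⟨(x, y + ε / 2), by
      have := hmem 0 (ε / 2) hzero hhalf
      simpa using this, rfl⟩
    have h2 : y ∈ Prod.snd '' L := ⟨(x, y), h00, rfl⟩
    have h3 := le_csSup hsc.bddAbove h1
    have h4 := csInf_le hsc.bddBelow h2
    unfold ht
    linarith

end Pool.Agent.Helper33.CB
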