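import Pool.Agent.Helper27.CB.St

/-! # Project CB (MP_b21509_co), module WCO: the function `wd L` is concave -/

set_option autoImplicit false

open MeasureTheory Set
open scoped ENNReal Pointwise

namespace Pool.Agent.Helper33.CB

open Pool.Agent.Helper27.CB

theorem hWCO (hSLK : StSLK) : StWCO := by
  intro L hL
  obtain ⟨hcc, hne, hemp, hmono, hcomb, hzero, hho, hht⟩ := hSLK L hL
  have hIcc : ∀ s, 0 ≤ s → s ≤ ho L → hs L s = Icc (sInf (hs L s)) (sSup (hs L s)) := by
    intro s h0 h1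
    exact eq_Icc_of_connected_compact ⟨hne s h0 h1, (hcc s).2.isPreconnected⟩ (hcc s).1
  have hle : ∀ s, 0 ≤ s → s ≤ ho L → sInf (hs L s) ≤ sSup (hs L s) := by
    intro s h0 h1
    exact csInf_le_csSup (hne s h0 h1) (hcc s).1.bddBelow (hcc s).1.bddAbove
  have hwd : ∀ s, 0 ≤ s → s ≤ ho L → wd L s = sSup (hs L s) - sInf (hs L s) := by
    intro s h0 h1
    have h2 : volume (hs L s) = ENNReal.ofReal (sSup (hs L s) - sInf (hs L s)) := by
      conv_lhs => rw [hIcc s h0 h1]
      rw [Real.volume_Icc]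
    unfold wd
    rw [h2, ENNReal.toReal_ofReal]
    linarith [hle s h0 h1]
  have hwd0 : wd L 0 = ht L := by
    rw [hwd 0 le_rfl hho.le, hzero]
    rfl
  have hconc : ∀ s s' a a' : ℝ, 0 ≤ s → s ≤ ho L → 0 ≤ s' → s' ≤ ho L → 0 ≤ a → 0 ≤ a' →
      a + a' = 1 → a * wd L s + a' * wd L s' ≤ wd L (a * s + a' * s') := by
    intro s s' a a' h0 h1 h0' h1' ha ha' haa
    have hc0 : 0 ≤ a * s + a' * s' := by positivity
    have hc1 : a * s + a' * s' ≤ ho L := by
      calc a * s + a' * s' ≤ a * ho L + a' * ho L :=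
            add_le_add (mul_le_mul_of_nonneg_left h1 ha) (mul_le_mul_of_nonneg_left h1' ha')
        _ = ho L := by rw [← add_mul, haa, one_mul]
    rw [hwd s h0 h1, hwd s' h0' h1', hwd _ hc0 hc1]
    have m1 : sSup (hs L s) ∈ hs L s := (hcc s).1.sSup_mem (hne s h0 h1)
    have m2 : sSup (hs L s') ∈ hs L s' := (hcc s').1.sSup_mem (hne s' h0' h1')
    have m3 : sInf (hs L s) ∈ hs L s := (hcc s).1.sInf_mem (hne s h0 h1)
    have m4 : sInf (hs L s') ∈ hs L s' := (hcc s').1.sInf_mem (hne s' h0' h1')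
    have k1 := le_csSup (hcc (a * s + a' * s')).1.bddAbove (hcomb s s' _ _ a a' m1 m2 ha ha' haa)
    have k2 := csInf_le (hcc (a * s + a' * s')).1.bddBelow (hcomb s s' _ _ a a' m3 m4 ha ha' haa)
    linarith
  have hnn : ∀ s, 0 ≤ wd L s := fun s => ENNReal.toReal_nonneg
  refine ⟨hho, hht, ⟨convex_Icc _ _, ?_⟩, ?_, hwd0, hnn, ?_⟩
  · intro s hs s' hs' a a' ha ha' haa
    simp only [smul_eq_mul]
    exact hconc s s' a a' hs.1 hs.2 hs'.1 hs'.2 ha ha' haa
  · intro s hs s' hs' hss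
    unfold wd
    refine ENNReal.toReal_mono ?_ (measure_mono (hmono s s' hs.1 hss))
    exact (hcc s).1.measure_lt_top.ne
  · intro s h0 h1
    have h2 := hconc 0 (ho L) (1 - s / ho L) (s / ho L) le_rfl hho.le hho.le le_rfl
      (by rw [sub_nonneg, div_le_one hho]; exact h1.le) (div_nonneg h0 hho.le) (by ring)
    rw [mul_zero, zero_add, div_mul_cancel₀ s hho.ne', hwd0] at h2
    have h3 : 0 ≤ s / ho L * wd L (ho L) := mul_nonneg (div_nonneg h0 hho.le) (hnn _)
    have h4 : 0 < (1 - s / ho L) * ht L := by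
      refine mul_pos ?_ hht
      rw [sub_pos, div_lt_one hho]
      exact h1
    linarith

end Pool.Agent.Helper33.CB
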