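import Pool.Agent.Helper27.CB.St

/-! # Project CB (MP_b21509_co), module ONE: the inequality for concave functions of one variable -/

set_option autoImplicit false

open MeasureTheory Set
open scoped ENNReal Pointwise

namespace Pool.Agent.Helper33.CB

open Pool.Agent.Helper27.CB

/-- a supporting line of a concave function at an interior point -/
private theorem support_ONE (w : ℝ → ℝ) (c σ : ℝ) (hσ0 : 0 < σ) (hσc : σ < c)
    (hw : ConcaveOn ℝ (Icc 0 c) w) :
    ∃ p : ℝ, ∀ t ∈ Icc (0 : ℝ) c, w t ≤ w σ + p * (t - σ) := by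
  have hc : 0 < c := hσ0.trans hσc
  set A : Set ℝ := (fun t => (w σ - w t) / (σ - t)) '' Ico 0 σ with hA
  have hAne : A.Nonempty := ⟨_, mem_image_of_mem _ (show (0 : ℝ) ∈ Ico 0 σ from ⟨le_rfl, hσ0⟩)⟩
  have hcross : ∀ t ∈ Ico (0 : ℝ) σ, ∀ u ∈ Ioc σ c,
      (w u - w σ) / (u - σ) ≤ (w σ - w t) / (σ - t) := by
    intro t ht u hu
    exact hw.slope_anti_adjacent ⟨ht.1, (ht.2.trans hσc).le⟩ ⟨(hσ0.trans hu.1).le, hu.2⟩ ht.2 hu.1
  have hbdd : BddBelow A := by
    refine ⟨(w c - w σ) / (c - σ), ?_⟩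
    rintro _ ⟨t, ht, rfl⟩
    exact hcross t ht c ⟨hσc, le_rfl⟩
  refine ⟨sInf A, ?_⟩
  intro t ht
  rcases lt_trichotomy t σ with h | h | h
  · have h1 : sInf A ≤ (w σ - w t) / (σ - t) := csInf_le hbdd (mem_image_of_mem _ ⟨ht.1, h⟩)
    have h2 : 0 < σ - t := by linarith
    rw [le_div_iff₀ h2] at h1
    nlinarith
  · subst h
    simp
  · have h1 : (w t - w σ) / (t - σ) ≤ sInf A := by
      refine le_csInf hAne ?_
      rintro _ ⟨u, hu, rfl⟩
      exact hcross u hu t ⟨h, ht.2⟩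
    have h2 : 0 < t - σ := by linarith
    rw [div_le_iff₀ h2] at h1
    linarith

private theorem poly_ONE (B α β x y : ℝ) :
    (∫ s in x..y, (s ^ 2 - B ^ 2 / 2) * (α + β * s)) =
      (β * y ^ 4 / 4 + α * y ^ 3 / 3 - B ^ 2 / 2 * (α * y + β * y ^ 2 / 2)) -
      (β * x ^ 4 / 4 + α * x ^ 3 / 3 - B ^ 2 / 2 * (α * x + β * x ^ 2 / 2)) := by
  have hder : ∀ s ∈ uIcc x y, HasDerivAt
      (fun s : ℝ => β * s ^ 4 / 4 + α * s ^ 3 / 3 - B ^ 2 / 2 * (α * s + β * s ^ 2 / 2))
      ((s ^ 2 - B ^ 2 / 2) * (α + β * s)) s := by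
    intro s _
    have h1 : HasDerivAt (fun s : ℝ => β * s ^ 4 / 4) (β * (4 * s ^ 3) / 4) s := by
      have := ((hasDerivAt_pow 4 s).const_mul β).div_const 4
      simpa using this
    have h2 : HasDerivAt (fun s : ℝ => α * s ^ 3 / 3) (α * (3 * s ^ 2) / 3) s := by
      have := ((hasDerivAt_pow 3 s).const_mul α).div_const 3
      simpa using this
    have h3 : HasDerivAt (fun s : ℝ => B ^ 2 / 2 * (α * s + β * s ^ 2 / 2))
        (B ^ 2 / 2 * (α * 1 + β * (2 * s) / 2)) s := by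
      have h4 := ((hasDerivAt_pow 2 s).const_mul β).div_const 2
      have h5 := (hasDerivAt_id s).const_mul α
      have := (h5.add h4).const_mul (B ^ 2 / 2)
      simpa using this
    exact ((h1.add h2).sub h3).congr_deriv (by ring)
  have hint : IntervalIntegrable (fun s : ℝ => (s ^ 2 - B ^ 2 / 2) * (α + β * s)) volume x y :=
    Continuous.intervalIntegrable (by fun_prop) _ _
  exact intervalIntegral.integral_eq_sub_of_hasDerivAt hder hint

theorem hONE : StONE := by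
  intro w c b hc hb hb1 hconc hanti
  have hc0 : (0 : ℝ) ≤ c := hc.le
  set B : ℝ := b * c with hB
  have hB0 : 0 < B := mul_pos hb hc
  have hBc : B < c := by
    rw [hB]; nlinarith
  -- integrability
  have hwint : ∀ x y : ℝ, x ∈ Icc (0 : ℝ) c → y ∈ Icc (0 : ℝ) c → IntervalIntegrable w volume x y := by
    intro x y hx hy
    refine AntitoneOn.intervalIntegrable (hanti.mono ?_)
    exact uIcc_subset_Icc hx hy
  have hkw : ∀ x y : ℝ, x ∈ Icc (0 : ℝ) c → y ∈ Icc (0 : ℝ) c →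
      IntervalIntegrable (fun s => (s ^ 2 - B ^ 2 / 2) * w s) volume x y := by
    intro x y hx hy
    exact (hwint x y hx hy).continuousOn_mul (by fun_prop)
  have m0 : (0 : ℝ) ∈ Icc (0 : ℝ) c := ⟨le_rfl, hc0⟩
  have mc : c ∈ Icc (0 : ℝ) c := ⟨hc0, le_rfl⟩
  have mB : B ∈ Icc (0 : ℝ) c := ⟨hB0.le, hBc.le⟩
  -- part one
  have hI : (∫ s in (0 : ℝ)..B, (s ^ 2 - B ^ 2 / 2) * w s) ≤ -(B ^ 3 / 6) * w 0 := by
    set t0 : ℝ := B / Real.sqrt 2 with ht0
    have hs2 : (0 : ℝ) < Real.sqrt 2 := Real.sqrt_pos.mpr (by norm_num)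
    have hs2sq : Real.sqrt 2 ^ 2 = 2 := Real.sq_sqrt (by norm_num)
    have ht0pos : 0 < t0 := div_pos hB0 hs2
    have ht0sq : t0 ^ 2 = B ^ 2 / 2 := by
      rw [ht0, div_pow, hs2sq]
    have ht0B : t0 < B := by
      have h1 : t0 ^ 2 < B ^ 2 := by rw [ht0sq]; nlinarith [pow_pos hB0 2]
      exact lt_of_pow_lt_pow_left₀ 2 hB0.le h1
    set q0 : ℝ := (w t0 - w 0) / t0 with hq0
    have hq0' : q0 * t0 = w t0 - w 0 := by
      rw [hq0]; field_simp
    have hpt : ∀ s ∈ Icc (0 : ℝ) B,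
        (s ^ 2 - B ^ 2 / 2) * w s ≤ (s ^ 2 - B ^ 2 / 2) * (w 0 + q0 * s) := by
      intro s hs
      rcases le_total s t0 with h | h
      · have hk : s ^ 2 - B ^ 2 / 2 ≤ 0 := by
          rw [← ht0sq]
          nlinarith [hs.1]
        have hv : w 0 + q0 * s ≤ w s := by
          have h1 := hconc.2 m0 (show t0 ∈ Icc (0 : ℝ) c from ⟨ht0pos.le, (ht0B.trans hBc).le⟩)
            (show 0 ≤ 1 - s / t0 by rw [sub_nonneg, div_le_one ht0pos]; exact h)
            (show 0 ≤ s / t0 from div_nonneg hs.1 ht0pos.le) (by ring)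
          simp only [smul_eq_mul, mul_zero, zero_add] at h1
          rw [div_mul_cancel₀ s ht0pos.ne'] at h1
          have h2 : (1 - s / t0) * w 0 + s / t0 * w t0 = w 0 + q0 * s := by
            rw [hq0]; field_simp; ring
          linarith
        exact mul_le_mul_of_nonpos_left hv hk
      · have hk : 0 ≤ s ^ 2 - B ^ 2 / 2 := by
          rw [← ht0sq]
          nlinarith [hs.1]
        have hspos : 0 < s := ht0pos.trans_le h
        have hv : w s ≤ w 0 + q0 * s := by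
          have h1 := hconc.2 m0 (show s ∈ Icc (0 : ℝ) c from ⟨hs.1, hs.2.trans hBc.le⟩)
            (show 0 ≤ 1 - t0 / s by rw [sub_nonneg, div_le_one hspos]; exact h)
            (show 0 ≤ t0 / s from div_nonneg ht0pos.le hs.1) (by ring)
          simp only [smul_eq_mul, mul_zero, zero_add] at h1
          rw [div_mul_cancel₀ t0 hspos.ne'] at h1
          have h3 : t0 / s * (w s - w 0) ≤ q0 * t0 := by
            rw [hq0']
            have : (1 - t0 / s) * w 0 + t0 / s * w s = w 0 + t0 / s * (w s - w 0) := by ring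
            linarith
          have h4 : t0 * (w s - w 0) ≤ t0 * (q0 * s) := by
            have h5 := mul_le_mul_of_nonneg_right h3 hspos.le
            have h6 : t0 / s * (w s - w 0) * s = t0 * (w s - w 0) := by
              field_simp
            rw [h6] at h5
            linarith
          have h7 := le_of_mul_le_mul_left h4 ht0pos
          linarith
        exact mul_le_mul_of_nonneg_left hv hk
    have h1 : (∫ s in (0 : ℝ)..B, (s ^ 2 - B ^ 2 / 2) * w s) ≤
        ∫ s in (0 : ℝ)..B, (s ^ 2 - B ^ 2 / 2) * (w 0 + q0 * s) := by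
      refine intervalIntegral.integral_mono_on hB0.le (hkw 0 B m0 mB) ?_ hpt
      exact Continuous.intervalIntegrable (by fun_prop) _ _
    rw [poly_ONE] at h1
    refine h1.trans (le_of_eq ?_)
    ring
  -- part two
  have hden : 0 < 2 + 2 * b - b ^ 2 := by nlinarith
  have hsg0 : 0 < sg b := by
    unfold sg
    positivity
  have hsg1 : sg b < 1 := by
    unfold sg
    rw [div_lt_one (by positivity)]
    nlinarith
  have hsgmu : sg b * mu b = (1 - b ^ 2) / 4 := by
    have hne : (2 + 2 * b - b ^ 2) ≠ 0 := hden.ne'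
    unfold sg mu
    rw [div_mul_eq_mul_div, div_eq_iff (by positivity)]
    ring
  have hII : (∫ s in B..c, (s ^ 2 - B ^ 2 / 2) * w s) ≤ mu b * c ^ 3 * w (sg b * c) := by
    set σ : ℝ := sg b * c with hσ
    have hσ0 : 0 < σ := mul_pos hsg0 hc
    have hσc : σ < c := by rw [hσ]; nlinarith
    obtain ⟨p, hp⟩ := support_ONE w c σ hσ0 hσc hconc
    have hpt : ∀ s ∈ Icc B c, (s ^ 2 - B ^ 2 / 2) * w s ≤
        (s ^ 2 - B ^ 2 / 2) * ((w σ - p * σ) + p * s) := by
      intro s hs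
      have hk : 0 ≤ s ^ 2 - B ^ 2 / 2 := by
        have : B ^ 2 ≤ s ^ 2 := pow_le_pow_left₀ hB0.le hs.1 2
        nlinarith [pow_pos hB0 2]
      refine mul_le_mul_of_nonneg_left ?_ hk
      have := hp s ⟨hB0.le.trans hs.1, hs.2⟩
      linarith
    have h1 : (∫ s in B..c, (s ^ 2 - B ^ 2 / 2) * w s) ≤
        ∫ s in B..c, (s ^ 2 - B ^ 2 / 2) * ((w σ - p * σ) + p * s) := by
      refine intervalIntegral.integral_mono_on hBc.le (hkw B c mB mc) ?_ hpt
      exact Continuous.intervalIntegrable (by fun_prop) _ _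
    rw [poly_ONE] at h1
    refine h1.trans (le_of_eq ?_)
    have h2 : p * c ^ 4 / 4 + (w σ - p * σ) * c ^ 3 / 3 - B ^ 2 / 2 *
        ((w σ - p * σ) * c + p * c ^ 2 / 2) - (p * B ^ 4 / 4 + (w σ - p * σ) * B ^ 3 / 3 -
        B ^ 2 / 2 * ((w σ - p * σ) * B + p * B ^ 2 / 2)) =
        mu b * c ^ 3 * w σ + p * c ^ 4 * ((1 - b ^ 2) / 4 - sg b * mu b) := by
      rw [hB, hσ]
      unfold mu
      ring
    rw [h2, hsgmu]
    ring
  -- sum
  have hsum : (∫ s in (0 : ℝ)..c, (s ^ 2 - B ^ 2 / 2) * w s) =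
      (∫ s in (0 : ℝ)..B, (s ^ 2 - B ^ 2 / 2) * w s) +
      ∫ s in B..c, (s ^ 2 - B ^ 2 / 2) * w s :=
    (intervalIntegral.integral_add_adjacent_intervals (hkw 0 B m0 mB) (hkw B c mB mc)).symm
  have hsplit : (∫ s in (0 : ℝ)..c, (s ^ 2 - B ^ 2 / 2) * w s) =
      (∫ s in (0 : ℝ)..c, s ^ 2 * w s) - B ^ 2 / 2 * ∫ s in (0 : ℝ)..c, w s := by
    rw [← intervalIntegral.integral_const_mul, ← intervalIntegral.integral_sub]
    · refine intervalIntegral.integral_congr ?_
      intro s _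
      ring
    · exact (hwint 0 c m0 mc).continuousOn_mul (by fun_prop)
    · exact (hwint 0 c m0 mc).const_mul _
  have hfin : (∫ s in (0 : ℝ)..c, s ^ 2 * w s) - B ^ 2 / 2 * (∫ s in (0 : ℝ)..c, w s) ≤
      -(B ^ 3 / 6) * w 0 + mu b * c ^ 3 * w (sg b * c) := by
    rw [← hsplit, hsum]
    linarith
  have e1 : B ^ 2 / 2 = b ^ 2 / 2 * c ^ 2 := by rw [hB]; ring
  have e2 : B ^ 3 / 6 = b ^ 3 / 6 * c ^ 3 := by rw [hB]; ring
  rw [e1, e2] at hfin
  linarith

end Pool.Agent.Helper33.CB
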