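import Pool.Agent.Helper97.CB.St

set_option autoImplicit false
set_option linter.unusedVariables false

/-! CB module PIG (MP_b21509_co): the third power of the chords in the mean direction. -/

namespace Pool.Agent.Helper33.CB

open Helper97.CB MeasureTheory Set Filter
open scoped Pointwise ENNReal

/-- the direction -/
noncomputable def dir (θ : ℝ) : ℂ := (Real.cos θ : ℂ) + (Real.sin θ : ℂ) * Complex.I

theorem dir_eq (θ : ℝ) : dir θ = Complex.exp ((θ : ℂ) * Complex.I) := by
  unfold dir
  rw [Complex.exp_mul_I, Complex.ofReal_cos, Complex.ofReal_sin]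

theorem norm_dir (θ : ℝ) : ‖dir θ‖ = 1 := by
  rw [dir_eq, Complex.norm_exp_ofReal_mul_I]

theorem continuous_dir : Continuous dir := by
  unfold dir
  fun_prop

/-- polar coordinates, iterated -/
theorem polar (f : ℂ → ℝ≥0∞) (hf : Measurable f) :
    ∫⁻ θ in Ioo (-Real.pi) Real.pi, ∫⁻ r in Ioi (0 : ℝ), ENNReal.ofReal r * f ((r : ℂ) * dir θ) =
      ∫⁻ z, f z := by
  have hm : Measurable (fun p : ℝ × ℝ => ENNReal.ofReal p.1 * f ((p.1 : ℂ) * dir p.2)) := by
    apply Measurable.mul
    · exact ENNReal.measurable_ofReal.comp measurable_fst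
    · apply hf.comp
      have : Continuous (fun p : ℝ × ℝ => (p.1 : ℂ) * dir p.2) := by
        have := continuous_dir
        fun_prop
      exact this.measurable
  rw [← Complex.lintegral_comp_polarCoord_symm f]
  have h1 : (∫⁻ p in polarCoord.target, ENNReal.ofReal p.1 • f (Complex.polarCoord.symm p)) =
      ∫⁻ p in (Ioi (0 : ℝ)) ×ˢ (Ioo (-Real.pi) Real.pi),
        ENNReal.ofReal p.1 * f ((p.1 : ℂ) * dir p.2) ∂(volume.prod volume) := by
    have ht : polarCoord.target = (Ioi (0 : ℝ)) ×ˢ (Ioo (-Real.pi) Real.pi) := rfl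
    rw [ht, Measure.volume_eq_prod]
    refine lintegral_congr fun p => ?_
    rw [smul_eq_mul, Complex.polarCoord_symm_apply]
    rfl
  rw [h1, setLIntegral_prod_symm _ hm.aemeasurable]

/-- the set whose sections are the overlaps -/
def ov (K : Set ℂ) : Set (ℂ × ℂ) := {p | p.2 ∈ K ∧ p.2 + p.1 ∈ K}

/-- the covariogram -/
noncomputable def cov (K : Set ℂ) (z : ℂ) : ℝ≥0∞ := volume (Prod.mk z ⁻¹' ov K)

theorem closed_ov {K : Set ℂ} (hK : IsClosed K) : IsClosed (ov K) := by
  have h1 : ov K = Prod.snd ⁻¹' K ∩ (fun p : ℂ × ℂ => p.2 + p.1) ⁻¹' K := rfl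
  rw [h1]
  exact (hK.preimage continuous_snd).inter (hK.preimage (continuous_snd.add continuous_fst))

theorem meas_cov {K : Set ℂ} (hK : IsClosed K) : Measurable (cov K) :=
  measurable_measure_prodMk_left (closed_ov hK).measurableSet

theorem int_cov {K : Set ℂ} (hK : IsClosed K) : ∫⁻ z, cov K z = volume K * volume K := by
  have h1 : (volume.prod volume) (ov K) = ∫⁻ z, cov K z :=
    Measure.prod_apply (closed_ov hK).measurableSet
  rw [← h1, Measure.prod_apply_symm (closed_ov hK).measurableSet]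
  have h2 : ∀ x : ℂ, volume ((fun z => (z, x)) ⁻¹' ov K) =
      K.indicator (fun _ => volume K) x := by
    intro x
    by_cases hx : x ∈ K
    · rw [indicator_of_mem hx]
      have : (fun z => (z, x)) ⁻¹' ov K = (fun z => x + z) ⁻¹' K := by
        ext z
        simp [ov, hx]
      rw [this, measure_preimage_add]
    · rw [indicator_of_notMem hx]
      have : (fun z => (z, x)) ⁻¹' ov K = ∅ := by
        ext z
        simp [ov, hx]
      rw [this, measure_empty]
  simp_rw [h2]
  rw [lintegral_indicator hK.measurableSet, setLIntegral_const]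

theorem isBody_rot {K : Set ℂ} (hK : IsBody K) {u : ℂ} (hu : ‖u‖ = 1) :
    IsBody ((fun z => u * z) '' K) := by
  obtain ⟨h1, h2, h3⟩ := hK
  have hu0 : u ≠ 0 := by
    intro h
    rw [h, norm_zero] at hu
    exact zero_ne_one hu
  refine ⟨?_, h2.image (continuous_const.mul continuous_id), ?_⟩
  · have := h1.linear_image ((LinearMap.mulLeft ℝ u))
    exact this
  · have hh : (fun z : ℂ => u * z) '' (interior K) ⊆ interior ((fun z => u * z) '' K) := by
      apply interior_maximal
      · exact image_mono interior_subset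
      · exact (Homeomorph.mulLeft₀ u hu0).isOpenMap _ isOpen_interior
    exact (h3.image _).mono hh

theorem mem_rot {K : Set ℂ} {u : ℂ} (hu : u ≠ 0) (x : ℂ) :
    u * x ∈ (fun z => u * z) '' K ↔ x ∈ K := by
  constructor
  · rintro ⟨y, hy, h⟩
    rwa [← mul_left_cancel₀ hu h]
  · intro h
    exact ⟨x, h, rfl⟩

/-- multiplication by a unit complex number preserves the volume -/
theorem vol_rot {u : ℂ} (hu : ‖u‖ = 1) (S : Set ℂ) : volume ((fun z => u * z) '' S) = volume S := by
  have h1 : (fun z : ℂ => u * z) '' S =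
      (rotation (⟨u, mem_sphere_zero_iff_norm.2 hu⟩ : Circle)) '' S := by
    apply image_congr
    intro z _
    rw [rotation_apply]
  rw [h1]
  set f := rotation (⟨u, mem_sphere_zero_iff_norm.2 hu⟩ : Circle) with hf
  have h2 : f '' S = f.symm ⁻¹' S := f.toEquiv.image_eq_preimage_symm S
  rw [h2]
  exact (f.symm.measurePreserving).measure_preimage_emb
    (f.symm.toHomeomorph.measurableEmbedding) S

theorem exists_overlap {K : Set ℂ} (z : ℂ) : z ∈ K - K ↔ ∃ b ∈ K, b + z ∈ K := by
  constructor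
  · rintro ⟨a, ha, b, hb, rfl⟩
    exact ⟨b, hb, by simpa using ha⟩
  · rintro ⟨b, hb, h⟩
    exact ⟨b + z, h, b, hb, by simp⟩

theorem hPIG (h : StWid) : StPig := by
  intro K hK
  obtain ⟨hKc, hKk, hKi⟩ := id hK
  have hcl : IsClosed K := hKk.isClosed
  -- finite positive volumes
  have hV0 : volume K ≠ 0 := by
    have : 0 < volume (interior K) := isOpen_interior.measure_pos _ hKi
    exact (lt_of_lt_of_le this (measure_mono interior_subset)).ne'
  have hVt : volume K ≠ ∞ := hKk.measure_lt_top.ne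
  have hDk : IsCompact (K - K) := by
    have h1 : K - K = (fun p : ℂ × ℂ => p.1 - p.2) '' (K ×ˢ K) := by
      ext z
      constructor
      · rintro ⟨a, ha, b, hb, rfl⟩
        exact ⟨(a, b), ⟨ha, hb⟩, rfl⟩
      · rintro ⟨⟨a, b⟩, ⟨ha, hb⟩, rfl⟩
        exact ⟨a, ha, b, hb, rfl⟩
    rw [h1]
    exact (hKk.prod hKk).image (continuous_fst.sub continuous_snd)
  have hDt : volume (K - K) ≠ ∞ := hDk.measure_lt_top.ne
  obtain ⟨p, hp⟩ := hKi
  have hpK : p ∈ K := interior_subset hp
  have hD0 : volume (K - K) ≠ 0 := by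
    have h1 : (fun z => -p + z) '' K ⊆ K - K := by
      rintro _ ⟨z, hz, rfl⟩
      exact ⟨z, hz, p, hpK, by ring⟩
    have h2 : volume ((fun z => -p + z) '' K) = volume K := by
      rw [image_add_left, measure_preimage_add]
    have h3 := measure_mono (μ := volume) h1
    rw [h2] at h3
    intro h4
    rw [h4] at h3
    exact hV0 (le_antisymm h3 bot_le)
  set κ : ℝ≥0∞ := volume K * volume K / volume (K - K) with hκ
  have hκt : κ ≠ ∞ := ENNReal.div_ne_top (ENNReal.mul_ne_top hVt hVt) hD0
  -- the two functions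
  set f1 : ℂ → ℝ≥0∞ := cov K with hf1
  set f2 : ℂ → ℝ≥0∞ := (K - K).indicator (fun _ => 1) with hf2
  have hm1 : Measurable f1 := meas_cov hcl
  have hm2 : Measurable f2 := measurable_const.indicator hDk.isClosed.measurableSet
  set F1 : ℝ → ℝ≥0∞ := fun θ => ∫⁻ r in Ioi (0 : ℝ), ENNReal.ofReal r * f1 ((r : ℂ) * dir θ)
    with hF1
  set F2 : ℝ → ℝ≥0∞ := fun θ => ∫⁻ r in Ioi (0 : ℝ), ENNReal.ofReal r * f2 ((r : ℂ) * dir θ)
    with hF2
  have hI1 : ∫⁻ θ in Ioo (-Real.pi) Real.pi, F1 θ = volume K * volume K := by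
    rw [← int_cov hcl]; exact polar f1 hm1
  have hI2 : ∫⁻ θ in Ioo (-Real.pi) Real.pi, F2 θ = volume (K - K) := by
    have := polar f2 hm2
    rw [lintegral_indicator hDk.isClosed.measurableSet, setLIntegral_const, one_mul] at this
    exact this
  have hmeasF : ∀ f : ℂ → ℝ≥0∞, Measurable f →
      Measurable (fun θ : ℝ => ∫⁻ r in Ioi (0 : ℝ), ENNReal.ofReal r * f ((r : ℂ) * dir θ)) := by
    intro f hf
    apply Measurable.lintegral_prod_right' (f := fun p : ℝ × ℝ =>
      ENNReal.ofReal p.2 * f ((p.2 : ℂ) * dir p.1))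
    apply Measurable.mul
    · exact ENNReal.measurable_ofReal.comp measurable_snd
    · apply hf.comp
      have : Continuous (fun p : ℝ × ℝ => (p.2 : ℂ) * dir p.1) := by
        have := continuous_dir
        fun_prop
      exact this.measurable
  -- a good direction
  obtain ⟨θ, hθ⟩ : ∃ θ, F1 θ ≤ κ * F2 θ := by
    by_contra hcon
    push Not at hcon
    have hlt := setLIntegral_strict_mono (μ := volume) (s := Ioo (-Real.pi) Real.pi)
      (f := fun θ => κ * F2 θ) (g := F1) measurableSet_Ioo (by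
        rw [Real.volume_Ioo]
        have := Real.pi_pos
        simp only [ne_eq, ENNReal.ofReal_eq_zero, not_le]
        linarith) (hmeasF f1 hm1) (by
        rw [lintegral_const_mul _ (hmeasF f2 hm2), hI2]
        exact ENNReal.mul_ne_top hκt hDt) (Eventually.of_forall fun θ _ => hcon θ)
    rw [lintegral_const_mul _ (hmeasF f2 hm2), hI2, hI1, hκ,
      ENNReal.div_mul_cancel hD0 hDt] at hlt
    exact lt_irrefl _ hlt
  -- the rotated body
  set v : ℂ := dir θ with hv
  have hvn : ‖v‖ = 1 := norm_dir θ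
  have hv0 : v ≠ 0 := by
    intro h'
    rw [h', norm_zero] at hvn
    exact zero_ne_one hvn
  set u : ℂ := v⁻¹ with hu
  have hun : ‖u‖ = 1 := by rw [hu, norm_inv, hvn, inv_one]
  have hu0 : u ≠ 0 := inv_ne_zero hv0
  refine ⟨u, hun, ?_⟩
  set K' : Set ℂ := (fun z => u * z) '' K with hK'
  obtain ⟨c0, _, _, _, c5, c6, _⟩ := h K' (isBody_rot hK hun)
  set c := cmax K' with hc
  -- the sections
  have hSh : ∀ r : ℝ, Sh K' r = (fun z => u * z) '' (Prod.mk ((r : ℂ) * v) ⁻¹' ov K) := by
    intro r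
    ext z
    constructor
    · rintro ⟨h1, h2⟩
      obtain ⟨x, hx, rfl⟩ := h1
      refine ⟨x, ⟨hx, ?_⟩, rfl⟩
      have h3 : u * x + (r : ℂ) = u * (x + (r : ℂ) * v) := by
        rw [mul_add, hu]; field_simp
      simp only at h2
      rw [h3, hK', mem_rot hu0] at h2
      exact h2
    · rintro ⟨x, ⟨hx, hx2⟩, rfl⟩
      refine ⟨⟨x, hx, rfl⟩, ?_⟩
      have h3 : u * x + (r : ℂ) = u * (x + (r : ℂ) * v) := by
        rw [mul_add, hu]; field_simp
      simp only
      rw [h3, hK', mem_rot hu0]
      exact hx2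
  have hvol : ∀ r : ℝ, volume (Sh K' r) = f1 ((r : ℂ) * v) := by
    intro r
    rw [hSh r, vol_rot hun]
    rfl
  have hne : ∀ r : ℝ, (r : ℂ) * v ∈ K - K ↔ (Sh K' r).Nonempty := by
    intro r
    rw [exists_overlap, hSh r, image_nonempty]
    constructor
    · rintro ⟨b, hb, hb2⟩
      exact ⟨b, hb, hb2⟩
    · rintro ⟨b, hb, hb2⟩
      exact ⟨b, hb, hb2⟩
  -- F2
  have hF2v : F2 θ = ENNReal.ofReal (c ^ 2 / 2) := by
    have e1 : F2 θ = ∫⁻ r in Ioc (0 : ℝ) c, ENNReal.ofReal r := by
      rw [hF2]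
      simp only
      have e2 : ∀ r ∈ Ioi (0 : ℝ), ENNReal.ofReal r * f2 ((r : ℂ) * dir θ) =
          (Ioc (0 : ℝ) c).indicator (fun r => ENNReal.ofReal r) r := by
        intro r hr
        by_cases hrc : r ≤ c
        · rw [indicator_of_mem (show r ∈ Ioc (0 : ℝ) c from ⟨hr, hrc⟩), hf2, indicator_of_mem, mul_one]
          exact (hne r).2 (c5 r ⟨le_of_lt hr, hrc⟩).1
        · rw [indicator_of_notMem (fun h' => hrc h'.2), hf2, indicator_of_notMem, mul_zero]
          intro h'
          have := (hne r).1 h'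
          rw [c6 r (not_le.1 hrc)] at this
          exact Set.not_nonempty_empty this
      rw [setLIntegral_congr_fun measurableSet_Ioi e2,
        setLIntegral_indicator measurableSet_Ioc]
      congr 2
      ext r
      simp only [mem_inter_iff, mem_Ioc, mem_Ioi]
      tauto
    rw [e1, ← ofReal_integral_eq_lintegral_ofReal]
    · rw [← intervalIntegral.integral_of_le c0.le, integral_id]
      norm_num
    · exact (continuous_id.integrableOn_Icc (a := 0) (b := c)).mono_set Ioc_subset_Icc_self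
    · exact (ae_restrict_iff' measurableSet_Ioc).2 (Eventually.of_forall fun r hr => hr.1.le)
  have hareaK : ENNReal.ofReal ((area K) ^ 2 / area (K - K)) = κ := by
    have hp2 : 0 < area (K - K) := ENNReal.toReal_pos hD0 hDt
    have hK0 : 0 ≤ area K := ENNReal.toReal_nonneg
    rw [ENNReal.ofReal_div_of_pos hp2, hκ, pow_two, ENNReal.ofReal_mul hK0]
    unfold area
    rw [ENNReal.ofReal_toReal hVt, ENNReal.ofReal_toReal hDt]
  have hRHS0 : 0 ≤ (area K) ^ 2 / area (K - K) * (c ^ 2 / 2) := by
    have : 0 ≤ area (K - K) := ENNReal.toReal_nonneg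
    positivity
  rw [intervalIntegral.integral_of_le c0.le]
  by_cases hint : Integrable (fun r : ℝ => r * area (Sh K' r)) (volume.restrict (Ioc 0 c))
  · rw [← ENNReal.ofReal_le_ofReal_iff hRHS0,
      ofReal_integral_eq_lintegral_ofReal hint
        ((ae_restrict_iff' measurableSet_Ioc).2 (Eventually.of_forall fun r hr =>
          mul_nonneg hr.1.le ENNReal.toReal_nonneg)),
      ENNReal.ofReal_mul (by
        have : 0 ≤ area (K - K) := ENNReal.toReal_nonneg
        positivity), hareaK, ← hF2v]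
    refine le_trans ?_ hθ
    rw [hF1]
    simp only
    calc ∫⁻ r in Ioc (0 : ℝ) c, ENNReal.ofReal (r * area (Sh K' r))
        = ∫⁻ r in Ioc (0 : ℝ) c, ENNReal.ofReal r * f1 ((r : ℂ) * dir θ) := by
          refine setLIntegral_congr_fun measurableSet_Ioc fun r hr => ?_
          rw [ENNReal.ofReal_mul hr.1.le]
          congr 1
          unfold area
          rw [ENNReal.ofReal_toReal, hvol r]
          rw [hvol r, hf1]
          refine ne_top_of_le_ne_top hVt (measure_mono ?_)
          intro x hx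
          exact hx.1
      _ ≤ ∫⁻ r in Ioi (0 : ℝ), ENNReal.ofReal r * f1 ((r : ℂ) * dir θ) :=
          lintegral_mono_set (fun r hr => hr.1)
  · rw [integral_undef hint]
    exact hRHS0

end Pool.Agent.Helper33.CB
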